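import Pool.Agent.V11288.LZ.Equi

/-!
# Beilinson's conjecture for singular K3 surfaces as the rationality of a limit of sums over primes

Let `X` be a singular K3 surface over `ℚ`.  For every prime `p` choose a matrix `F_p ∈ M_2(ℚ)` with
`det(1 - T F_p) = det(1 - T Frob_p | H^2_et(X)_tr^{I_p})` (geometric Frobenius; at the bad primes filled up with
zeros).  Its complex eigenvalues have absolute value at most `p` (Deligne), and this is all that is used
(`WeightTwo`).  `Λ(s) = L(h²_tr(X), s)` is the Euler product of `det(1 - p^{-s} F_p)⁻¹` for `Re s > 2`; it is an entire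
function with a simple zero at `s = -1` (Livné, Hecke); only the meromorphic continuation to the points of the
real interval `[-1, 2]` and the behaviour at `-1` are used (`IsLFunction`).

Let `γ > π/2` be real, `Λ_γ = ∫_0^∞ (e^{-t} - e^{iγt}/Γ(1+t)) dt/t` and for `x > 1`

`W(x) = ∑_p ∑_{n ≥ 1} tr(F_p^n) p^n / n · e^{iγt} / Γ(1 + t)`,  `t = n log p / log x`,

an absolutely convergent series.  Let `H = H^3_M(X, ℚ(4))_tr` and let `P : H → ℝ` be `(2πi)^{-3}` times the pairing of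
the regulator with a generator `γ'` of `H_2(X(ℂ), ℚ)^-_tr` (another generator changes `P` by a factor in `ℚ^×`).  We
show, without any hypothesis on the zeros of `Λ`:

1. `Λ'(-1) = e^{-Λ_γ} (log x) exp W(x) + O(1/log x)` for `x → ∞`;

2. for `ξ ∈ H`: `P(ξ) = a Λ'(-1)` with some `a ∈ ℚ^×` IF AND ONLY IF `(log x) exp W(x) → b e^{Λ_γ} P(ξ)` with some
   `b ∈ ℚ^×`;

3. Q1 holds for `X` (that is, 2. for all `ξ ≠ 0`) if and only if `H = 0`, or `dim_ℚ H = 1` and
   `(log x) exp W(x) → b e^{Λ_γ} P(ξ)` with some `b ∈ ℚ^×` for ONE `ξ ∈ H`.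

So Q1 says that `dim_ℚ H ≤ 1` and that the limit of `(log x) exp W(x) / (e^{Λ_γ} P(ξ))`, formed with the traces of
Frobenius and the regulator, is a nonzero rational number.

Proof.  The law of rotated Mittag-Leffler sums at all real points with a rate, `Pool.Agent.V11288.LZ.Eul.lead_rate`.
-/

set_option autoImplicit false

namespace Pool.Agent.Results.MP_870c49_nt.RationalLimit

open Filter Topology Set

/-- The complex eigenvalues of all `F_p` have absolute value at most `p`. -/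
def WeightTwo (F : Nat.Primes → Matrix (Fin 2) (Fin 2) ℚ) : Prop :=
  ∀ p : Nat.Primes, ∀ z ∈ ((F p).map (algebraMap ℚ ℂ)).charpoly.roots, ‖z‖ ≤ (p : ℝ)

/-- `Λ(s) = L(h²_tr(X), s)`: the Euler product of `det(1 - p^{-s} F_p)⁻¹` for `Re s > 2`, meromorphic at the points
of the real interval `[-1, 2]`, holomorphic at `-1` with a simple zero. -/
structure IsLFunction (F : Nat.Primes → Matrix (Fin 2) (Fin 2) ℚ) (Λ : ℂ → ℂ) : Prop where
  mero : ∀ x ∈ Icc (-1 : ℝ) 2, MeromorphicAt Λ (x : ℂ)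
  prod : ∀ s : ℂ, 2 < s.re →
    Λ s = ∏' p : Nat.Primes, ((1 - (p : ℂ) ^ (-s) • (F p).map (algebraMap ℚ ℂ)).det)⁻¹
  hol : AnalyticAt ℂ Λ (-1)
  zero : Λ (-1) = 0
  simple : deriv Λ (-1) ≠ 0

/-- The weight `e^{iγt} / Γ(1 + t)`. -/
noncomputable def weight (γ t : ℝ) : ℂ :=
  Complex.exp ((γ * t : ℝ) * Complex.I) / (Real.Gamma (1 + t) : ℂ)

/-- The term of `W(x)` at `(p, n)`: `tr(F_p^n) p^n / n` times the weight at `t = n log p / log x`. -/
noncomputable def term (F : Nat.Primes → Matrix (Fin 2) (Fin 2) ℚ) (γ x : ℝ) (p : Nat.Primes) (n : ℕ) :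
    ℂ :=
  ((F p ^ n).trace : ℂ) * (p : ℂ) ^ n / n * weight γ (n * Real.log p / Real.log x)

/-- `W(x)`, the sum over the primes `p` and `n ≥ 1` (here `n = y.2 + 1`). -/
noncomputable def W (F : Nat.Primes → Matrix (Fin 2) (Fin 2) ℚ) (γ x : ℝ) : ℂ :=
  ∑' y : Nat.Primes × ℕ, term F γ x y.1 (y.2 + 1)

/-- `Λ_γ = ∫_0^∞ (e^{-t} - e^{iγt} / Γ(1 + t)) dt / t`. -/
noncomputable def Lam (γ : ℝ) : ℂ := ∫ t in Ioi (0 : ℝ),
  (Complex.exp (-(t : ℂ)) - Complex.exp ((γ * t : ℝ) * Complex.I) * ((Real.Gamma (1 + t))⁻¹ : ℝ)) / t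

/-- `y = a z` with some `a ∈ ℚ^×`. -/
def RationalMultiple (y z : ℂ) : Prop := ∃ a : ℚ, a ≠ 0 ∧ y = a * z

/-- `(log x) exp W(x) → b e^{Λ_γ} y` with some `b ∈ ℚ^×`. -/
def PrimeLimit (F : Nat.Primes → Matrix (Fin 2) (Fin 2) ℚ) (γ : ℝ) (y : ℂ) : Prop :=
  ∃ b : ℚ, b ≠ 0 ∧ Tendsto (fun x : ℝ => Real.log x * Complex.exp (W F γ x)) atTop
    (𝓝 (b * Complex.exp (Lam γ) * y))

open Pool.Agent.V11288.LZ

variable {F : Nat.Primes → Matrix (Fin 2) (Fin 2) ℚ} {γ : ℝ} {Λ : ℂ → ℂ}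

theorem eul (hF : WeightTwo F) :
    Eul 1 1 (fun p : Nat.Primes => (p : ℝ)) (fun p => (F p).map (algebraMap ℚ ℂ)) :=
  ⟨le_rfl, fun p => by exact_mod_cast p.2.two_le,
    fun _ hx => Nat.Primes.summable_rpow.2 (by linarith), fun p z hz => by
      rw [Real.rpow_one]
      exact hF p z hz⟩

theorem trace_map (M : Matrix (Fin 2) (Fin 2) ℚ) (n : ℕ) :
    (M.map (algebraMap ℚ ℂ) ^ n).trace = ((M ^ n).trace : ℂ) := by
  have h1 : M.map (algebraMap ℚ ℂ) ^ n = (M ^ n).map (algebraMap ℚ ℂ) := by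
    rw [← RingHom.mapMatrix_apply, ← RingHom.mapMatrix_apply, map_pow]
  rw [h1]
  simp [Matrix.trace]

theorem term_eq (x : ℝ) (y : Nat.Primes × ℕ) :
    tm (fun p : Nat.Primes => (p : ℝ)) (fun p => (F p).map (algebraMap ℚ ℂ)) (-1) γ x y =
      term F γ x y.1 (y.2 + 1) := by
  unfold tm term weight wt
  rw [trace_map, Real.rpow_neg_one]
  push_cast
  rw [inv_pow]
  congr 1
  rw [mul_comm _ ((((y.1 : ℕ) : ℂ) ^ (y.2 + 1))⁻¹), div_mul_eq_div_div, div_inv_eq_mul]

theorem W_eq (x : ℝ) :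
    tot (fun p : Nat.Primes => (p : ℝ)) (fun p => (F p).map (algebraMap ℚ ℂ)) (-1) γ x = W F γ x :=
  tsum_congr fun y => term_eq x y

theorem lim_of_rate {f : ℝ → ℂ} {z : ℂ} (h : (fun X : ℝ => f X - z) =O[atTop]
    (fun X : ℝ => 1 / Real.log X)) : Tendsto f atTop (𝓝 z) := by
  have h1 := (h.trans_tendsto (tendsto_const_nhds.div_atTop Real.tendsto_log_atTop)).add_const z
  simpa using h1

theorem main (hF : WeightTwo F) (hΛ : IsLFunction F Λ) (hγ : Real.pi / 2 < γ) :
    (fun x : ℝ => Real.log x * Complex.exp (W F γ x) - Complex.exp (Lam γ) * deriv Λ (-1)) =O[atTop]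
      (fun x : ℝ => 1 / Real.log x) := by
  have hcast : (((-1 : ℝ)) : ℂ) = -1 := by push_cast; rfl
  have h1 : Tendsto (fun s : ℂ => Λ s / (s - ((-1 : ℝ) : ℂ)) ^ (1 : ℤ)) (𝓝[≠] ((-1 : ℝ) : ℂ))
      (𝓝 (deriv Λ (-1))) := by
    have h2 := hasDerivAt_iff_tendsto_slope.1 hΛ.hol.differentiableAt.hasDerivAt
    rw [hcast]
    refine h2.congr fun s => ?_
    rw [slope_def_field, hΛ.zero, sub_zero, zpow_one]
  have h3 := (eul hF).lead_rate (L := Λ) (-1) (fun x hx => hΛ.mero x ⟨hx.1, by linarith [hx.2]⟩)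
    (fun s hs => hΛ.prod s (by linarith)) hγ h1
  simp only [W_eq, zpow_one, Int.cast_one, one_mul] at h3
  exact h3

/-- **Beilinson's conjecture for singular K3 surfaces as the rationality of a limit of sums over primes.** -/
theorem result (F : Nat.Primes → Matrix (Fin 2) (Fin 2) ℚ) (hF : WeightTwo F) (Λ : ℂ → ℂ)
    (hΛ : IsLFunction F Λ) (γ : ℝ) (hγ : Real.pi / 2 < γ) (H : Type) [AddCommGroup H] [Module ℚ H]
    (P : H →ₗ[ℚ] ℝ) :
    (∀ x : ℝ, 1 < x → Summable fun y : Nat.Primes × ℕ => ‖term F γ x y.1 (y.2 + 1)‖) ∧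
    (fun x : ℝ => Complex.exp (-Lam γ) * (Real.log x * Complex.exp (W F γ x)) - deriv Λ (-1)) =O[atTop]
      (fun x : ℝ => 1 / Real.log x) ∧
    (∀ ξ : H, RationalMultiple (P ξ) (deriv Λ (-1)) ↔ PrimeLimit F γ (P ξ)) ∧
    ((∀ ξ : H, ξ ≠ 0 → RationalMultiple (P ξ) (deriv Λ (-1))) ↔
      Subsingleton H ∨ (Module.finrank ℚ H = 1 ∧ ∃ ξ : H, PrimeLimit F γ (P ξ))) := by
  have hm := main hF hΛ hγ
  have hexp0 : Complex.exp (Lam γ) ≠ 0 := Complex.exp_ne_zero _
  have h3 : ∀ y : ℂ, RationalMultiple y (deriv Λ (-1)) ↔ PrimeLimit F γ y := by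
    intro y
    constructor
    · rintro ⟨a, ha, hy⟩
      refine ⟨a⁻¹, inv_ne_zero ha, ?_⟩
      have h4 := lim_of_rate hm
      have ha' : (a : ℂ) ≠ 0 := by exact_mod_cast ha
      have h5 : ((a⁻¹ : ℚ) : ℂ) * Complex.exp (Lam γ) * y = Complex.exp (Lam γ) * deriv Λ (-1) := by
        rw [hy]
        push_cast
        field_simp
      rw [h5]
      exact h4
    · rintro ⟨b, hb, h⟩
      have h4 := tendsto_nhds_unique h (lim_of_rate hm)
      have hb' : (b : ℂ) ≠ 0 := by exact_mod_cast hb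
      refine ⟨b⁻¹, inv_ne_zero hb, ?_⟩
      have h5 : (b : ℂ) * y = deriv Λ (-1) := by
        apply mul_left_cancel₀ hexp0
        rw [← h4]
        ring
      rw [← h5]
      push_cast
      field_simp
  refine ⟨fun x hx => ?_, ?_, fun ξ => h3 _, ?_⟩
  · refine (((eul hF).final' (L := Λ) (-1) (fun x hx => hΛ.mero x ⟨hx.1, by linarith [hx.2]⟩)
      (fun s hs => hΛ.prod s (by linarith)) hγ).1 x hx).congr fun y => ?_
    rw [term_eq]
  · refine (hm.const_mul_left (Complex.exp (-Lam γ))).congr_left fun x => ?_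
    have hexp : Complex.exp (-Lam γ) * Complex.exp (Lam γ) = 1 := by
      rw [← Complex.exp_add, neg_add_cancel, Complex.exp_zero]
    linear_combination -(deriv Λ (-1)) * hexp
  · constructor
    · intro h
      rcases subsingleton_or_nontrivial H with hs | hn
      · exact Or.inl hs
      · right
        obtain ⟨ξ, hξ⟩ := exists_ne (0 : H)
        obtain ⟨a, ha, hP⟩ := h ξ hξ
        refine ⟨?_, ξ, (h3 _).1 (h ξ hξ)⟩
        rw [finrank_eq_one_iff']
        refine ⟨ξ, hξ, fun w => ?_⟩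
        by_cases hw : w = 0
        · exact ⟨0, by rw [hw, zero_smul]⟩
        · obtain ⟨b, hb, hP'⟩ := h w hw
          refine ⟨b / a, ?_⟩
          by_contra hne
          have hne' : (b / a) • ξ - w ≠ 0 := sub_ne_zero.2 hne
          obtain ⟨c, hc, hP''⟩ := h _ hne'
          have h5 : (P ((b / a) • ξ - w) : ℂ) = 0 := by
            rw [map_sub, map_smul]
            push_cast
            rw [Rat.smul_def]
            push_cast
            rw [hP, hP']
            have ha' : (a : ℂ) ≠ 0 := by exact_mod_cast ha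
            field_simp
            ring
          rw [h5] at hP''
          have hc' : (c : ℂ) ≠ 0 := by exact_mod_cast hc
          exact (mul_ne_zero hc' hΛ.simple) hP''.symm
    · rintro (hs | ⟨hfin, ξ, hξ⟩) w hw
      · exact absurd (Subsingleton.elim w 0) hw
      · obtain ⟨a, ha, hP⟩ := (h3 _).2 hξ
        have hξ0 : ξ ≠ 0 := by
          rintro rfl
          rw [map_zero] at hP
          have ha' : (a : ℂ) ≠ 0 := by exact_mod_cast ha
          exact (mul_ne_zero ha' hΛ.simple) (by rw [← hP]; simp)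
        obtain ⟨c, hc⟩ := (finrank_eq_one_iff_of_nonzero' ξ hξ0).1 hfin w
        have hc0 : c ≠ 0 := by
          rintro rfl
          rw [zero_smul] at hc
          exact hw hc.symm
        refine ⟨c * a, mul_ne_zero hc0 ha, ?_⟩
        rw [← hc, map_smul, Rat.smul_def]
        push_cast
        rw [hP]
        ring

end Pool.Agent.Results.MP_870c49_nt.RationalLimit
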